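import Pool.Agent.TH120.Sec.Gal

/-!
# Sections and norms from cyclic extensions: the abstract argument
-/

set_option autoImplicit false
set_option maxHeartbeats 400000
set_option linter.unusedSectionVars false

namespace Pool.Agent.Q61.CN

open Pool.Agent.W620.SC Finset

section

variable {M : Type*} [Field M] (Φ : RingAut M)

/-- the norm -/
def Nm (d : ℕ) (x : M) : M := ∏ i ∈ range d, (Φ ^ i) x

variable {Φ} {d : ℕ}

lemma Nm_mul (x y : M) : Nm Φ d (x * y) = Nm Φ d x * Nm Φ d y := by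
  unfold Nm
  rw [← prod_mul_distrib]
  exact prod_congr rfl fun i _ => map_mul _ _ _

lemma Nm_pow (x : M) (n : ℕ) : Nm Φ d (x ^ n) = Nm Φ d x ^ n := by
  unfold Nm
  rw [← prod_pow]
  exact prod_congr rfl fun i _ => map_pow _ _ _

lemma Nm_div (x y : M) : Nm Φ d (x / y) = Nm Φ d x / Nm Φ d y := by
  unfold Nm
  rw [← prod_div_distrib]
  exact prod_congr rfl fun i _ => map_div₀ _ _ _

lemma Nm_ne {x : M} (hx : x ≠ 0) : Nm Φ d x ≠ 0 :=
  prod_ne_zero_iff.2 fun _ _ => (_root_.map_ne_zero _).2 hx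

lemma Nm_fix {x : M} (hx : Φ x = x) : Nm Φ d x = x ^ d := by
  have h : ∀ i, (Φ ^ i) x = x := by
    intro i
    induction i with
    | zero => rfl
    | succ i ih =>
      rw [pow_succ]
      change (Φ ^ i) (Φ x) = x
      rw [hx, ih]
  unfold Nm
  rw [prod_congr rfl fun i _ => h i, prod_const, card_range]

lemma Nm_Φ {x : M} (hx : (Φ ^ d) x = x) : Nm Φ d (Φ x) = Nm Φ d x := by
  have h1 : Nm Φ d (Φ x) = ∏ i ∈ range d, (Φ ^ (i + 1)) x :=
    prod_congr rfl fun i _ => by rw [pow_succ]; rfl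
  have h2 := prod_range_succ' (fun i => (Φ ^ i) x) d
  have h3 := prod_range_succ (fun i => (Φ ^ i) x) d
  rw [h2] at h3
  simp only [pow_zero] at h3
  rw [hx] at h3
  by_cases h0 : x = 0
  · subst h0
    rw [map_zero]
  · have h4 : (1 : RingAut M) x = x := rfl
    rw [h4] at h3
    rw [h1]
    exact mul_right_cancel₀ h0 h3

lemma Nm_Φj {x : M} (hx : (Φ ^ d) x = x) (j : ℕ) : Nm Φ d ((Φ ^ j) x) = Nm Φ d x := by
  induction j with
  | zero => rfl
  | succ j ih =>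
    have h1 : (Φ ^ (j + 1)) x = Φ ((Φ ^ j) x) := by
      rw [pow_succ']
      rfl
    rw [h1, Nm_Φ, ih]
    change (Φ ^ d * Φ ^ j) x = _
    rw [← pow_add, add_comm, pow_add]
    change (Φ ^ j) ((Φ ^ d) x) = _
    rw [hx]

lemma Φ_Nm {x : M} (hx : (Φ ^ d) x = x) : Φ (Nm Φ d x) = Nm Φ d x := by
  have h1 : Φ (Nm Φ d x) = Nm Φ d (Φ x) := by
    unfold Nm
    rw [map_prod]
    refine prod_congr rfl fun i _ => ?_
    change (Φ * Φ ^ i) x = (Φ ^ i * Φ) x
    rw [← pow_succ, ← pow_succ']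
  rw [h1, Nm_Φ hx]

/-- the auxiliary product -/
def Rr (Φ : RingAut M) (d : ℕ) (u : M) : M := ∏ j ∈ range d, ((Φ ^ j) u) ^ (d - 1 - j)

lemma Rr_ne {u : M} (hu : u ≠ 0) : Rr Φ d u ≠ 0 :=
  prod_ne_zero_iff.2 fun _ _ => pow_ne_zero _ ((_root_.map_ne_zero _).2 hu)

lemma Φ_Rr (u : M) : Φ (Rr Φ d u) * u ^ d = Rr Φ d u * Nm Φ d u := by
  have h1 : Φ (Rr Φ d u) = ∏ j ∈ range d, ((Φ ^ (j + 1)) u) ^ (d - 1 - j) := by
    unfold Rr
    rw [map_prod]
    refine prod_congr rfl fun i _ => ?_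
    rw [map_pow, pow_succ']
    rfl
  have h2 := prod_range_succ' (fun j => ((Φ ^ j) u) ^ (d - j)) d
  have h3 := prod_range_succ (fun j => ((Φ ^ j) u) ^ (d - j)) d
  rw [h2] at h3
  simp only [Nat.sub_self, pow_zero, mul_one, Nat.sub_zero] at h3
  have h4 : (1 : RingAut M) u = u := rfl
  rw [h4] at h3
  have h5 : ∏ j ∈ range d, ((Φ ^ (j + 1)) u) ^ (d - 1 - j) =
      ∏ j ∈ range d, ((Φ ^ (j + 1)) u) ^ (d - (j + 1)) :=
    prod_congr rfl fun j _ => by rw [Nat.sub_sub, add_comm 1 j]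
  rw [h1, h5, h3]
  unfold Rr Nm
  rw [← prod_mul_distrib]
  refine prod_congr rfl fun j hj => ?_
  rw [mem_range] at hj
  rw [← pow_succ]
  congr 1
  omega

lemma Nm_Rr {u : M} (hu : (Φ ^ d) u = u) :
    Nm Φ d (Rr Φ d u) = Nm Φ d u ^ (∑ j ∈ range d, (d - 1 - j)) := by
  have h1 : Nm Φ d (Rr Φ d u) = ∏ j ∈ range d, (Nm Φ d ((Φ ^ j) u)) ^ (d - 1 - j) := by
    unfold Nm Rr
    simp only [map_prod, map_pow, ← prod_pow]
    exact prod_comm
  rw [h1, prod_congr rfl fun j _ => by rw [Nm_Φj hu j], prod_pow_eq_pow_sum]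

lemma sum_two (d : ℕ) : 2 * (∑ j ∈ range d, (d - 1 - j)) = d * (d - 1) := by
  rw [sum_range_reflect (fun j => j) d, mul_comm, sum_range_id_mul_two]

end

variable {k A M : Type*} [Field k] [Field A] [Field M] [Algebra k A]

/-- **The abstract theorem.** -/
theorem abs_norm [CharZero k] [IsAlgClosed A] [Algebra.IsAlgebraic k A]
    (s : (A ≃ₐ[k] A) →* RingAut M) (ι : A →+* M) (hι : ∀ σ a, s σ (ι a) = ι (σ a))
    (cont : ∀ w : M, ∃ E : IntermediateField k A, FiniteDimensional k E ∧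
      ∀ σ ∈ E.fixingSubgroup, s σ w = w)
    (S : IntermediateField k A) (φ : A ≃ₐ[k] A) (d q : ℕ) (hd : 0 < d) (hq : 0 < q)
    (hpar : Even (q * (d - 1)))
    (hgen : ∀ T : Subgroup (A ≃ₐ[k] A), S.fixingSubgroup ≤ T → φ ∈ T → T = ⊤)
    (hφd : φ ^ d ∈ S.fixingSubgroup) (hφS : ∀ x, φ x ∈ S ↔ x ∈ S)
    (h y : M) (hh : ∀ σ ∈ S.fixingSubgroup, s σ h = h) (h0 : h ≠ 0) (hy : ∀ σ, s σ y = y)
    (hy0 : y ≠ 0) (a : k)
    (hN : ∏ i ∈ range d, s (φ ^ i) h = ι (algebraMap k A a) * y ^ (d * q))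
    (α : M) (hα : α ^ (d * q) = s φ h / h) :
    ∃ e ∈ S, algebraMap k A a = ∏ i ∈ range d, (φ ^ i) e := by
  classical
  have hac : IsAlgClosure k A := ⟨inferInstance, inferInstance⟩
  have hnor : Normal k A := IsAlgClosure.normal k A
  have hgal : IsGalois k A := ⟨⟩
  set Φ : RingAut M := s φ with hΦ
  have hΦi : ∀ i x, s (φ ^ i) x = (Φ ^ i) x := fun i x => by rw [map_pow]
  have hιΦ : ∀ i x, (Φ ^ i) (ι x) = ι ((φ ^ i) x) := fun i x => by rw [← hΦi, hι]
  have hn : 0 < d * q := Nat.mul_pos hd hq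
  -- the fixed field of `G_S`
  have stab : ∀ x : M, (∀ σ ∈ S.fixingSubgroup, s σ x = x) →
      ∀ σ ∈ S.fixingSubgroup, s σ (Φ x) = Φ x := by
    intro x hx σ hσ
    have h1 : φ⁻¹ * σ * φ ∈ S.fixingSubgroup := by
      rw [IntermediateField.mem_fixingSubgroup_iff]
      intro x hx
      change φ.symm (σ (φ x)) = x
      rw [(IntermediateField.mem_fixingSubgroup_iff _ _).1 hσ _ ((hφS x).2 hx),
        φ.symm_apply_apply]
    have h2 := hx _ h1
    have h3 : σ * φ = φ * (φ⁻¹ * σ * φ) := by group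
    change (s σ * s φ) x = _
    rw [← map_mul, h3, map_mul]
    change s φ (s (φ⁻¹ * σ * φ) x) = _
    rw [h2]
  have stabj : ∀ x : M, (∀ σ ∈ S.fixingSubgroup, s σ x = x) → ∀ j : ℕ,
      ∀ σ ∈ S.fixingSubgroup, s σ ((Φ ^ j) x) = (Φ ^ j) x := by
    intro x hx j
    induction j with
    | zero => exact hx
    | succ j ih =>
      have h1 : (Φ ^ (j + 1)) x = Φ ((Φ ^ j) x) := by
        rw [pow_succ']
        rfl
      rw [h1]
      exact stab _ ih
  have fixall : ∀ x : M, (∀ σ ∈ S.fixingSubgroup, s σ x = x) → Φ x = x → ∀ σ, s σ x = x := by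
    intro x hx hΦx
    let T : Subgroup (A ≃ₐ[k] A) :=
      { carrier := {σ | s σ x = x}
        mul_mem' := by
          intro a b ha hb
          change s (a * b) x = x
          rw [map_mul]
          change s a (s b x) = x
          rw [hb, ha]
        one_mem' := by
          change s 1 x = x
          rw [map_one]
          rfl
        inv_mem' := by
          intro a ha
          change s a⁻¹ x = x
          rw [map_inv]
          have h1 : s a x = x := ha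
          conv_lhs => rw [← h1]
          exact (s a).symm_apply_apply x }
    have hT := hgen T (fun σ hσ => hx σ hσ) hΦx
    intro σ
    have h1 : σ ∈ T := by rw [hT]; trivial
    exact h1
  have const : ∀ z : M, ∀ m : ℕ, 0 < m → (∀ σ, s σ z = z) → (∃ b, z ^ m = ι b) →
      ∃ c : k, z = ι (algebraMap k A c) := by
    intro z m hm hz ⟨b, hb⟩
    obtain ⟨c, hc⟩ := root_mem ι hm hb
    have h1 : c ∈ (⊥ : IntermediateField k A) := by
      refine mem_of_fixed ⊥ fun σ _ => ?_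
      apply ι.injective
      rw [← hι, hc, hz]
    obtain ⟨c', hc'⟩ := IntermediateField.mem_bot.1 h1
    exact ⟨c', by rw [hc', hc]⟩
  -- Kummer theory
  have hΦh0 : Φ h / h ≠ 0 := div_ne_zero ((_root_.map_ne_zero _).2 h0) h0
  have hα0 : α ≠ 0 := by
    rintro rfl
    rw [zero_pow hn.ne'] at hα
    exact hΦh0 hα.symm
  obtain ⟨E, hE, hE'⟩ := cont α
  obtain ⟨b, hb0, hb⟩ := exists_fixed_multiple s ι hι S.fixingSubgroup α hα0 (by
    intro σ hσ
    have h1 : (s σ α / α) ^ (d * q) = ι 1 := by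
      rw [div_pow, ← map_pow, hα, map_div₀, hh σ hσ, stab h hh σ hσ, div_self hΦh0, map_one]
    obtain ⟨ζ, hζ⟩ := root_mem ι hn h1
    exact ⟨ζ, by rw [hζ, div_mul_cancel₀ _ hα0]⟩) E hE'
  set u : M := ι b * α with hu
  have hιb0 : ι b ≠ 0 := (_root_.map_ne_zero _).2 hb0
  have hu0 : u ≠ 0 := mul_ne_zero hιb0 hα0
  have hun : u ^ (d * q) = ι (b ^ (d * q)) * (Φ h / h) := by
    rw [hu, mul_pow, hα, map_pow]
  have hφd' : ∀ x : M, (∀ σ ∈ S.fixingSubgroup, s σ x = x) → (Φ ^ d) x = x := by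
    intro x hx
    rw [← hΦi]
    exact hx _ hφd
  have hΦdu : (Φ ^ d) u = u := hφd' u hb
  have hΦdh : (Φ ^ d) h = h := hφd' h hh
  set w : M := Nm Φ d u with hw
  have hw0 : w ≠ 0 := Nm_ne hu0
  have hwfix : ∀ σ, s σ w = w := by
    refine fixall w ?_ (Φ_Nm hΦdu)
    intro σ hσ
    rw [hw]
    unfold Nm
    rw [map_prod]
    exact prod_congr rfl fun i _ => stabj u hb i σ hσ
  have hιN : ∀ x : A, Nm Φ d (ι x) = ι (∏ i ∈ range d, (φ ^ i) x) := by
    intro x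
    unfold Nm
    rw [map_prod]
    exact prod_congr rfl fun i _ => hιΦ i x
  have hwn : w ^ (d * q) = ι (∏ i ∈ range d, (φ ^ i) (b ^ (d * q))) := by
    rw [hw, ← Nm_pow, hun, Nm_mul, Nm_div, Nm_Φ hΦdh, div_self (Nm_ne h0), mul_one, hιN]
  obtain ⟨w0, hw0'⟩ := const w (d * q) hn hwfix ⟨_, hwn⟩
  -- the product `R`
  set R : M := Rr Φ d u with hR
  have hR0 : R ≠ 0 := Rr_ne hu0
  have hΦR : Φ R * u ^ d = R * w := Φ_Rr u
  have hΦR' : Φ R = R * w / u ^ d := by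
    rw [eq_div_iff (pow_ne_zero _ hu0)]
    exact hΦR
  have hRfix : ∀ σ ∈ S.fixingSubgroup, s σ R = R := by
    intro σ hσ
    rw [hR]
    unfold Rr
    rw [map_prod]
    refine prod_congr rfl fun j _ => ?_
    rw [map_pow, stabj u hb j σ hσ]
  set v' : M := h * R ^ q with hv'
  have hv'0 : v' ≠ 0 := mul_ne_zero h0 (pow_ne_zero _ hR0)
  have hv'fix : ∀ σ ∈ S.fixingSubgroup, s σ v' = v' := by
    intro σ hσ
    rw [hv', map_mul, map_pow, hh σ hσ, hRfix σ hσ]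
  have hbn0 : ι (b ^ (d * q)) ≠ 0 := (_root_.map_ne_zero _).2 (pow_ne_zero _ hb0)
  have hΦv' : Φ v' = ι ((b ^ (d * q))⁻¹ * (algebraMap k A w0) ^ q) * v' := by
    have h1 : Φ h = (ι (b ^ (d * q)))⁻¹ * u ^ (d * q) * h := by
      rw [hun]
      field_simp
    rw [hv', map_mul, map_pow, hΦR', h1, map_mul, map_inv₀, map_pow ι (algebraMap k A w0), ← hw0',
      div_pow, mul_pow R w, pow_mul u d q]
    have hud : u ^ d ≠ 0 := pow_ne_zero _ hu0
    field_simp
  -- all conjugates of `v'` are constant multiples of `v'`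
  have hall : ∀ σ, ∃ ζ : A, s σ v' = ι ζ * v' := by
    let T : Subgroup (A ≃ₐ[k] A) :=
      { carrier := {σ | ∃ ζ : A, ζ ≠ 0 ∧ s σ v' = ι ζ * v'}
        mul_mem' := by
          rintro a b ⟨ζ, hζ0, hζ⟩ ⟨ξ, hξ0, hξ⟩
          refine ⟨a ξ * ζ, mul_ne_zero ((_root_.map_ne_zero _).2 hξ0) hζ0, ?_⟩
          have h1 : s (a * b) v' = s a (s b v') := by
            rw [map_mul s a b]
            rfl
          rw [h1, hξ, map_mul (s a), hι, hζ, map_mul ι, mul_assoc]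
        one_mem' := ⟨1, one_ne_zero, by rw [map_one, map_one, one_mul]; rfl⟩
        inv_mem' := by
          rintro a ⟨ζ, hζ0, hζ⟩
          refine ⟨a⁻¹ (ζ⁻¹), (_root_.map_ne_zero _).2 (inv_ne_zero hζ0), ?_⟩
          have h1 : s a (ι (a⁻¹ ζ⁻¹) * v') = v' := by
            rw [map_mul, hι, hζ]
            have h2 : a (a⁻¹ ζ⁻¹) = ζ⁻¹ := a.apply_symm_apply _
            rw [h2, map_inv₀, inv_mul_cancel_left₀ ((_root_.map_ne_zero _).2 hζ0)]
          have h3 : s a⁻¹ v' = s a⁻¹ (s a (ι (a⁻¹ ζ⁻¹) * v')) := by rw [h1]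
          rw [h3]
          change (s a⁻¹ * s a) _ = _
          rw [← map_mul, inv_mul_cancel, map_one]
          rfl }
    have hT := hgen T (fun σ hσ => ⟨1, one_ne_zero, by rw [hv'fix σ hσ, map_one, one_mul]⟩)
      ⟨_, by
        have : ι ((b ^ (d * q))⁻¹ * (algebraMap k A w0) ^ q) ≠ 0 := by
          intro h1
          rw [h1, zero_mul] at hΦv'
          exact (_root_.map_ne_zero _).2 hv'0 hΦv'
        exact fun h2 => this (by rw [h2, map_zero]), hΦv'⟩
    intro σ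
    have h1 : σ ∈ T := by rw [hT]; trivial
    obtain ⟨ζ, -, hζ⟩ := h1
    exact ⟨ζ, hζ⟩
  obtain ⟨E2, hE2, hE2'⟩ := cont v'
  obtain ⟨β, hβ0, hβ⟩ := exists_fixed_multiple s ι hι ⊤ v' hv'0 (fun σ _ => hall σ) E2 hE2'
  have hιβ0 : ι β ≠ 0 := (_root_.map_ne_zero _).2 hβ0
  have hβS : β ∈ S := by
    refine mem_of_fixed S fun σ hσ => ?_
    apply ι.injective
    have h1 := hβ σ trivial
    rw [map_mul, hv'fix σ hσ, hι] at h1
    exact mul_right_cancel₀ hv'0 h1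
  set v : M := ι β * v' with hv
  have hvfix : ∀ σ, s σ v = v := fun σ => hβ σ trivial
  have hv0 : v ≠ 0 := mul_ne_zero hιβ0 hv'0
  -- the final computation
  obtain ⟨r, hr⟩ := hpar
  have hT2 := sum_two d
  set t := ∑ j ∈ range d, (d - 1 - j) with ht
  have htq : t * q = d * r := by
    have h1 : 2 * (t * q) = 2 * (d * r) := by
      calc 2 * (t * q) = (2 * t) * q := by ring
        _ = d * (d - 1) * q := by rw [hT2]
        _ = d * (q * (d - 1)) := by ring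
        _ = d * (r + r) := by rw [hr]
        _ = 2 * (d * r) := by ring
    omega
  have hNh : Nm Φ d h = ι (algebraMap k A a) * y ^ (d * q) := by
    rw [← hN]
    exact prod_congr rfl fun i _ => (hΦi i h).symm
  have hvd : v ^ d = ι ((∏ i ∈ range d, (φ ^ i) β) * algebraMap k A a) * (y ^ q * w ^ r) ^ d := by
    rw [← Nm_fix (Φ := Φ) (hvfix φ), hv, hv', Nm_mul, Nm_mul, Nm_pow, hR, Nm_Rr hΦdu, hιN, hNh,
      ← pow_mul, htq, map_mul, mul_pow, ← pow_mul, ← pow_mul, mul_comm q d, mul_comm r d]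
    ring
  have hyw0 : y ^ q * w ^ r ≠ 0 := mul_ne_zero (pow_ne_zero _ hy0) (pow_ne_zero _ hw0)
  have hzfix : ∀ σ, s σ (v / (y ^ q * w ^ r)) = v / (y ^ q * w ^ r) := by
    intro σ
    have h1 : s σ (y ^ q * w ^ r) = y ^ q * w ^ r := by
      rw [map_mul (s σ) (y ^ q), map_pow (s σ) y, map_pow (s σ) w, hy, hwfix]
    rw [map_div₀, hvfix σ, h1]
  have hzd : (v / (y ^ q * w ^ r)) ^ d = ι ((∏ i ∈ range d, (φ ^ i) β) * algebraMap k A a) := by
    rw [div_pow, hvd, mul_div_cancel_right₀ _ (pow_ne_zero _ hyw0)]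
  obtain ⟨z0, hz0⟩ := const _ d hd hzfix ⟨_, hzd⟩
  have hfin : (∏ i ∈ range d, (φ ^ i) β) * algebraMap k A a = (algebraMap k A z0) ^ d := by
    apply ι.injective
    rw [← hzd, hz0, map_pow]
  have hNβ0 : ∏ i ∈ range d, (φ ^ i) β ≠ 0 :=
    prod_ne_zero_iff.2 fun i _ => (_root_.map_ne_zero _).2 hβ0
  refine ⟨algebraMap k A z0 / β, div_mem (S.algebraMap_mem _) hβS, ?_⟩
  have h1 : ∏ i ∈ range d, (φ ^ i) (algebraMap k A z0 / β) =
      (algebraMap k A z0) ^ d / ∏ i ∈ range d, (φ ^ i) β := by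
    rw [prod_congr rfl fun i _ => map_div₀ (φ ^ i) _ _, prod_div_distrib,
      prod_congr rfl fun i _ => (φ ^ i).commutes z0, prod_const, card_range]
  rw [h1, eq_div_iff hNβ0, ← hfin, mul_comm]

end Pool.Agent.Q61.CN
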