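import Pool.Agent.Q61.CN.Sec
import Pool.Agent.Q61.NF.Ext

/-!
# Polynomials coprime to their conjugates
-/

set_option autoImplicit false
set_option maxHeartbeats 400000
set_option linter.unusedSectionVars false

namespace Pool.Agent.Q61.CN

open Pool.Agent.W620.SC Pool.Agent.W623.SecC Pool.Agent.TH120.Sec Pool.Agent.Q61.NF Polynomial

universe u v w x

section poly

variable {E : Type x} {Ω : Type w} [Field E] [Field Ω] (W : ValuationSubring Ω) (s : E →+* Ω)
  (hs : ∀ e, s e ∈ W)

include hs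

lemma eval_mem (p : E[X]) {z : Ω} (hz : z ∈ W) : (p.map s).eval z ∈ W := by
  rw [eval_map, eval₂_eq_sum]
  exact sum_mem fun i _ => mul_mem (hs _) (pow_mem hz _)

lemma isU_const {e : E} (he : e ≠ 0) : IsU W (s e) :=
  ⟨(_root_.map_ne_zero _).2 he, hs _, by rw [← map_inv₀]; exact hs _⟩

/-- at infinity -/
lemma eval_inf (p : E[X]) (hp : p ≠ 0) {z : Ω} (hz : z ∉ W) :
    IsU W ((p.map s).eval z / z ^ p.natDegree) := by
  have hz0 : z ≠ 0 := by
    rintro rfl
    exact hz W.zero_mem
  have hzi : z⁻¹ ∈ W := (W.mem_or_inv_mem z).resolve_left hz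
  have hvz : W.valuation z⁻¹ < 1 := by
    rw [map_inv₀]
    refine inv_lt_one_of_one_lt₀ ?_
    rw [← not_le]
    intro h
    exact hz ((W.valuation_le_one_iff z).1 h)
  have h1 : (p.map s).eval z / z ^ p.natDegree = eval₂ s z⁻¹ (reverse p) := by
    have : Invertible z := invertibleOfNonzero hz0
    have h2 := eval₂_reverse_mul_pow s z p
    rw [invOf_eq_inv] at h2
    rw [eval_map, ← h2, mul_div_cancel_right₀ _ (pow_ne_zero _ hz0)]
  have h3 : eval₂ s z⁻¹ (reverse p) = z⁻¹ * eval₂ s z⁻¹ (divX (reverse p)) +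
      s p.leadingCoeff := by
    conv_lhs => rw [← divX_mul_X_add (reverse p)]
    rw [eval₂_add, eval₂_mul, eval₂_X, eval₂_C, coeff_zero_reverse, mul_comm]
  have h4 : eval₂ s z⁻¹ (divX (reverse p)) ∈ W := by
    rw [← eval_map]
    exact eval_mem W s hs _ hzi
  have h5 : W.valuation (z⁻¹ * eval₂ s z⁻¹ (divX (reverse p))) < 1 := by
    rw [map_mul]
    exact lt_of_le_of_lt (mul_le_of_le_one_right' ((W.valuation_le_one_iff _).2 h4)) hvz
  have hl : IsU W (s p.leadingCoeff) := isU_const W s hs (leadingCoeff_ne_zero.2 hp)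
  have h6 : W.valuation (s p.leadingCoeff) = 1 := by
    refine le_antisymm ((W.valuation_le_one_iff _).2 hl.2.1) ?_
    have := (W.valuation_le_one_iff _).2 hl.2.2
    rw [map_inv₀] at this
    have h0 : W.valuation (s p.leadingCoeff) ≠ 0 := (Valuation.ne_zero_iff _).2 hl.1
    exact (inv_le_one₀ (zero_lt_iff.2 h0)).1 this
  have h7 : W.valuation (eval₂ s z⁻¹ (reverse p)) = 1 := by
    rw [h3, Valuation.map_add_eq_of_lt_right _ (by rw [h6]; exact h5), h6]
  rw [h1]
  have h8 : eval₂ s z⁻¹ (reverse p) ≠ 0 := by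
    intro h
    rw [h, map_zero] at h7
    exact zero_ne_one h7
  refine ⟨h8, (W.valuation_le_one_iff _).1 h7.le, ?_⟩
  rw [← W.valuation_le_one_iff, map_inv₀, h7, inv_one]

end poly

/-- a sum of two non-units is not `1` -/
lemma unit_or {Ω : Type w} [Field Ω] (W : ValuationSubring Ω) {z z' u v : Ω} (hz : z ∈ W)
    (hz' : z' ∈ W) (hu : u ∈ W) (hv : v ∈ W) (h : u * z + v * z' = 1) : IsU W z ∨ IsU W z' := by
  by_contra hcon
  rw [not_or] at hcon
  have key : ∀ z : Ω, z ∈ W → ¬ IsU W z → W.valuation z < 1 := by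
    intro z hz h1
    refine lt_of_le_of_ne ((W.valuation_le_one_iff _).2 hz) fun h2 => h1 ?_
    refine ⟨?_, hz, ?_⟩
    · rintro rfl
      rw [map_zero] at h2
      exact zero_ne_one h2
    · rw [← W.valuation_le_one_iff, map_inv₀, h2, inv_one]
  have h1 : W.valuation (u * z + v * z') < 1 := by
    refine Valuation.map_add_lt _ ?_ ?_
    · rw [map_mul]
      exact lt_of_le_of_lt (mul_le_of_le_one_left' ((W.valuation_le_one_iff _).2 hu))
        (key z hz hcon.1)
    · rw [map_mul]
      exact lt_of_le_of_lt (mul_le_of_le_one_left' ((W.valuation_le_one_iff _).2 hv))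
        (key z' hz' hcon.2)
  rw [h, map_one] at h1
  exact lt_irrefl _ h1

lemma val_poly {E : Type x} {Ω : Type w} {F : Type v} [Field E] [Field Ω] [Field F]
    [Algebra F Ω] (s : E →+* Ω) (H : E[X]) (z : F) :
    val s (fun j : Fin (H.natDegree + 1) => H.coeff j) (fun j => z ^ (j : ℕ)) =
      (H.map s).eval (algebraMap F Ω z) := by
  unfold val
  rw [eval_map, eval₂_eq_sum_range,
    ← Fin.sum_univ_eq_sum_range (fun i => s (H.coeff i) * algebraMap F Ω z ^ i)]
  exact Finset.sum_congr rfl fun i _ => by rw [map_pow]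

/-- **Polynomials coprime to their conjugates.** -/
theorem ordDiv_poly {K : Type u} {E : Type x} {F : Type v} {Ω : Type w} [Field K] [Field E]
    [Algebra K E] [FiniteDimensional K E] [IsGalois K E] [Field F] [Field Ω] [Algebra F Ω]
    [Algebra K Ω] (U : Set (ValuationSubring F)) (n : ℕ) (hn : 0 < n) (a : K) (ha : a ≠ 0)
    (H : E[X]) (hH : H ≠ 0)
    (hcop : ∀ g : E ≃ₐ[K] E, g ≠ 1 → IsCoprime H (H.map (g : E →+* E)))
    (z y : F)
    (hUK : ∀ W : ValuationSubring Ω, W.comap (algebraMap F Ω) ∈ U → ∀ c : K, algebraMap K Ω c ∈ W)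
    (h0 : ∀ σ : E →ₐ[K] Ω, (H.map (σ : E →+* Ω)).eval (algebraMap F Ω z) ≠ 0)
    (h2 : ∏ σ : E →ₐ[K] Ω, (H.map (σ : E →+* Ω)).eval (algebraMap F Ω z) =
      algebraMap K Ω a * algebraMap F Ω y ^ n) :
    ∀ σ τ : E →ₐ[K] Ω, OrdDiv Ω U n
      (val (σ : E →+* Ω) (fun j : Fin (H.natDegree + 1) => H.coeff j) (fun j => z ^ (j : ℕ)))
      (val (τ : E →+* Ω) (fun j : Fin (H.natDegree + 1) => H.coeff j) (fun j => z ^ (j : ℕ))) := by
  classical
  have hEW : ∀ W : ValuationSubring Ω, W.comap (algebraMap F Ω) ∈ U → ∀ σ : E →ₐ[K] Ω,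
      ∀ e : E, (σ : E →+* Ω) e ∈ W := by
    intro W hW σ e
    have h1 : IsIntegral K (σ e) := (Algebra.IsIntegral.isIntegral (R := K) e).map σ
    refine const_mem (hUK W hW) ?_
    exact mem_algebraicClosure_iff.2 h1.isAlgebraic
  intro σ τ
  have hconj : σ ≠ τ → ∃ g : E ≃ₐ[K] E, g ≠ 1 ∧ τ = σ.comp (g : E →ₐ[K] E) := by
    intro hst
    let _ : Algebra E Ω := σ.toRingHom.toAlgebra
    have hst' : IsScalarTower K E Ω := IsScalarTower.of_algebraMap_eq (fun c => (σ.commutes c).symm)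
    refine ⟨Normal.algHomEquivAut K Ω E τ, ?_, ?_⟩
    · intro h1
      apply hst
      rw [← (Normal.algHomEquivAut K Ω E).symm_apply_apply τ, h1]
      rfl
    · conv_lhs => rw [← (Normal.algHomEquivAut K Ω E).symm_apply_apply τ]
      rfl
  intro W hW
  by_cases hzW : algebraMap F Ω z ∈ W
  · -- points where `z` is finite
    let U' : Set (ValuationSubring F) := {O | O ∈ U ∧ z ∈ O}
    refine ordDiv_of_disjoint (K := K) U' n hn a ha _ _ y (fun W hW => hUK W hW.1) ?_ ?_ ?_ σ τ W
      ⟨hW, hzW⟩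
    · intro σ
      rw [val_poly]
      exact h0 σ
    · simp only [val_poly]
      exact h2
    · intro W hW σ τ hst
      obtain ⟨hW, hzW⟩ := hW
      have hzW : algebraMap F Ω z ∈ W := hzW
      rw [val_poly, val_poly]
      let _ : Algebra E Ω := σ.toRingHom.toAlgebra
      have hst' : IsScalarTower K E Ω :=
        IsScalarTower.of_algebraMap_eq (fun c => (σ.commutes c).symm)
      have h1 : τ = σ.comp ((Normal.algHomEquivAut K Ω E τ : E ≃ₐ[K] E) : E →ₐ[K] E) := by
        conv_lhs => rw [← (Normal.algHomEquivAut K Ω E).symm_apply_apply τ]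
        rfl
      have h3 : (Normal.algHomEquivAut K Ω E τ : E ≃ₐ[K] E) ≠ 1 := by
        intro h
        rw [h] at h1
        exact hst h1.symm
      obtain ⟨p, q, hpq⟩ := hcop _ h3
      have h4 : (H.map ((Normal.algHomEquivAut K Ω E τ : E ≃ₐ[K] E) : E →+* E)).map
          (σ : E →+* Ω) = H.map (τ : E →+* Ω) := by
        rw [Polynomial.map_map]
        congr 1
        ext e
        conv_rhs => rw [h1]
        rfl
      have h5 := congrArg (fun P : E[X] => (P.map (σ : E →+* Ω)).eval (algebraMap F Ω z)) hpq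
      simp only [Polynomial.map_add, Polynomial.map_mul, eval_add, eval_mul, Polynomial.map_one,
        eval_one, h4] at h5
      exact unit_or W (eval_mem W _ (hEW W hW σ) _ hzW) (eval_mem W _ (hEW W hW τ) _ hzW)
        (eval_mem W _ (hEW W hW σ) _ hzW) (eval_mem W _ (hEW W hW σ) _ hzW) h5
  · -- points where `z` has a pole
    rw [val_poly, val_poly]
    have h1 := eval_inf W _ (hEW W hW σ) H hH hzW
    have h3 := eval_inf W _ (hEW W hW τ) H hH hzW
    have hz0 : algebraMap F Ω z ≠ 0 := by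
      intro h
      rw [h] at hzW
      exact hzW W.zero_mem
    have h4 := h1.div h3
    rw [div_div_div_cancel_right₀ (pow_ne_zero _ hz0)] at h4
    refine ⟨1, one_ne_zero, ?_, ?_⟩
    · rw [map_one, one_pow, div_one]
      exact h4.2.1
    · rw [map_one, one_pow]
      rw [one_div]
      exact h4.2.2

end Pool.Agent.Q61.CN
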