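import Pool.Agent.Q61.CN.Abs
import Pool.Agent.Q61.NF.Gen

/-!
# Sections and norms from cyclic extensions: curves
-/

set_option autoImplicit false
set_option maxHeartbeats 400000
set_option linter.unusedSectionVars false

namespace Pool.Agent.Q61.CN

open Pool.Agent.W620.SC Pool.Agent.W623.SecC Pool.Agent.TH120.Sec Pool.Agent.Q61.NF Finset Module

universe u v w x

/-- products over a cyclic group -/
lemma prod_cyclic {G N : Type*} [Group G] [Fintype G] [CommMonoid N] (g : G)
    (hg : ∀ x, x ∈ Subgroup.zpowers g) (f : G → N) (d : ℕ) (hd : d = Nat.card G) :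
    ∏ i ∈ range d, f (g ^ i) = ∏ x, f x := by
  classical
  subst hd
  rw [← IsCyclic.image_range_card hg, prod_image]
  intro i hi j hj hij
  have h1 : Nat.card G = orderOf g := (orderOf_eq_card_of_forall_mem_zpowers hg).symm
  simp only [coe_range, Set.mem_Iio] at hi hj
  rw [h1] at hi hj
  exact pow_injOn_Iio_orderOf hi hj hij

/-- **Sections and norms.** -/
theorem norm_of_section {k : Type u} {F : Type v} {Ω : Type w} [Field k] [Field F] [Field Ω]
    [Algebra k F] [Algebra F Ω] [Algebra k Ω] [IsScalarTower k F Ω] [CharZero k] [IsAlgClosed Ω]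
    [Algebra.IsAlgebraic F Ω]
    (U : Set (ValuationSubring F)) (hU : ∀ O ∈ U, ∀ c : k, algebraMap k F c ∈ O)
    (G : GSection k F Ω U)
    (E : Type x) [Field E] [Algebra k E] [FiniteDimensional k E] [IsGalois k E]
    [IsCyclic (E ≃ₐ[k] E)] (n : ℕ) (hn : 0 < n) (hdn : finrank k E ∣ n)
    (hpar : Even (n / finrank k E * (finrank k E - 1))) (a : k)
    {r : ℕ} (A : Fin r → E) (x : Fin r → F) (y : F)
    (hne : ∀ σ : E →ₐ[k] Ω, ∑ j, σ (A j) * algebraMap F Ω (x j) ≠ 0)
    (hN : ∏ σ : E →ₐ[k] Ω, ∑ j, σ (A j) * algebraMap F Ω (x j) =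
      algebraMap k Ω a * algebraMap F Ω y ^ n)
    (hdiv : ∀ σ τ : E →ₐ[k] Ω, OrdDiv Ω U n (∑ j, σ (A j) * algebraMap F Ω (x j))
      (∑ j, τ (A j) * algebraMap F Ω (x j))) :
    ∃ e : E, Algebra.norm k e = a := by
  classical
  have hac : IsAlgClosure k (algebraicClosure k Ω) := inferInstance
  have hA : IsAlgClosed (algebraicClosure k Ω) := hac.1
  have hnor : Normal k (algebraicClosure k Ω) := IsAlgClosure.normal k _
  obtain ⟨g, hg⟩ := IsCyclic.exists_generator (α := E ≃ₐ[k] E)
  set d := finrank k E with hd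
  have hdpos : 0 < d := finrank_pos
  obtain ⟨q, hq⟩ := hdn
  have hq0 : 0 < q := Nat.pos_of_ne_zero (by rintro rfl; omega)
  have hqd : n / d = q := by rw [hq]; exact Nat.mul_div_cancel_left q hdpos
  rw [hqd] at hpar
  have hdcard : d = Nat.card (E ≃ₐ[k] E) := (IsGalois.card_aut_eq_finrank k E).symm
  -- embed `E`
  let ψ : E →ₐ[k] algebraicClosure k Ω := IsAlgClosed.lift
  let _ : Algebra E (algebraicClosure k Ω) := ψ.toRingHom.toAlgebra
  have hst : IsScalarTower k E (algebraicClosure k Ω) :=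
    IsScalarTower.of_algebraMap_eq (fun c => (ψ.commutes c).symm)
  set φ : algebraicClosure k Ω ≃ₐ[k] algebraicClosure k Ω := g.liftNormal _ with hφ
  have hφψ : ∀ e : E, φ (ψ e) = ψ (g e) := fun e => g.liftNormal_commutes _ e
  have hφi : ∀ (i : ℕ) (e : E), (φ ^ i) (ψ e) = ψ ((g ^ i) e) := by
    intro i
    induction i with
    | zero => intro e; rfl
    | succ i ih =>
      intro e
      have h1 : (φ ^ (i + 1)) (ψ e) = (φ ^ i) (φ (ψ e)) := by rw [pow_succ]; rfl
      have h2 : (g ^ (i + 1)) e = (g ^ i) (g e) := by rw [pow_succ]; rfl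
      rw [h1, hφψ, ih, h2]
  set S : IntermediateField k (algebraicClosure k Ω) := ψ.fieldRange with hS
  have hψS : ∀ e, ψ e ∈ S := fun e => ⟨e, rfl⟩
  have hgd : g ^ d = 1 := by rw [hdcard]; exact pow_card_eq_one'
  have hφd : φ ^ d ∈ S.fixingSubgroup := by
    rw [IntermediateField.mem_fixingSubgroup_iff]
    rintro _ ⟨e, rfl⟩
    change (φ ^ d) (ψ e) = ψ e
    rw [hφi, hgd]
    rfl
  have hφS : ∀ z, φ z ∈ S ↔ z ∈ S := by
    intro z
    constructor
    · rintro ⟨e, he⟩
      have he' : ψ e = φ z := he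
      have h1 : φ (ψ (g.symm e)) = φ z := by
        rw [hφψ, g.apply_symm_apply, he']
      rw [← φ.injective h1]
      exact hψS _
    · rintro ⟨e, rfl⟩
      change φ (ψ e) ∈ S
      rw [hφψ]
      exact hψS _
  have hgen : ∀ T : Subgroup (algebraicClosure k Ω ≃ₐ[k] algebraicClosure k Ω),
      S.fixingSubgroup ≤ T → φ ∈ T → T = ⊤ := by
    intro T hT hφT
    rw [eq_top_iff]
    intro τ _
    have h1 : ∀ e, ψ (τ.restrictNormal E e) = τ (ψ e) := fun e => τ.restrictNormal_commutes E e
    obtain ⟨i, hi⟩ : ∃ i : ℕ, g ^ i = τ.restrictNormal E := by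
      have h2 := hg (τ.restrictNormal E)
      rw [← mem_powers_iff_mem_zpowers] at h2
      exact h2
    have h3 : (φ ^ i)⁻¹ * τ ∈ S.fixingSubgroup := by
      rw [IntermediateField.mem_fixingSubgroup_iff]
      rintro _ ⟨e, rfl⟩
      change (φ ^ i).symm (τ (ψ e)) = ψ e
      rw [← h1, ← hi, ← hφi, (φ ^ i).symm_apply_apply]
    have h4 : τ = φ ^ i * ((φ ^ i)⁻¹ * τ) := by group
    rw [h4]
    exact T.mul_mem (T.pow_mem hφT i) (hT h3)
  -- the functions
  set j : algebraicClosure k Ω →+* Ω := algebraMap (algebraicClosure k Ω) Ω with hj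
  set s := (toRingAutHom F (unramified F Ω U)).comp G.toHom with hs
  set ι : algebraicClosure k Ω →+* unramified F Ω U := constHom hU with hι0
  have hι : ∀ σ c, s σ (ι c) = ι (σ c) := fun σ c =>
    Subtype.ext (G.compat σ c (constHom hU c) rfl)
  have hfix : ∀ (σ) (z : F), s σ (algebraMap F (unramified F Ω U) z) =
      algebraMap F (unramified F Ω U) z := fun σ z => (G.toHom σ).commutes z
  set H : (E ≃ₐ[k] E) → unramified F Ω U := fun g' =>
    ∑ l, ι (ψ (g' (A l))) * algebraMap F (unramified F Ω U) (x l) with hH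
  let Ψ : (E ≃ₐ[k] E) → (E →ₐ[k] Ω) := fun g' =>
    ((algebraicClosure k Ω).val.comp ψ).comp (g' : E →ₐ[k] E)
  have hval : ∀ g', ((H g' : unramified F Ω U) : Ω) =
      ∑ l, Ψ g' (A l) * algebraMap F Ω (x l) := by
    intro g'
    change algebraMap (unramified F Ω U) Ω (H g') = _
    rw [hH, map_sum]
    exact Finset.sum_congr rfl fun l _ => map_mul (algebraMap (unramified F Ω U) Ω) _ _
  have hH0 : ∀ g', H g' ≠ 0 := by
    intro g' h0
    apply hne (Ψ g')
    have h1 := hval g'
    rw [h0] at h1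
    exact h1.symm
  have hHs : ∀ i : ℕ, s (φ ^ i) (H 1) = H (g ^ i) := by
    intro i
    rw [hH, map_sum]
    refine Finset.sum_congr rfl fun l _ => ?_
    rw [map_mul, hfix, hι]
    change ι ((φ ^ i) (ψ (A l))) * _ = _
    rw [hφi]
  have hΨbij : Function.Bijective Ψ := by
    let _ : Algebra E Ω := ((algebraicClosure k Ω).val.comp ψ).toRingHom.toAlgebra
    have hst' : IsScalarTower k E Ω :=
      IsScalarTower.of_algebraMap_eq (fun c => (((algebraicClosure k Ω).val.comp ψ).commutes c).symm)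
    have h1 : Ψ = (Normal.algHomEquivAut k Ω E).symm := by
      funext g'
      rfl
    rw [h1]
    exact Equiv.bijective _
  have hprod : ∏ i ∈ range d, s (φ ^ i) (H 1) =
      ι (algebraMap k _ a) * algebraMap F (unramified F Ω U) y ^ (d * q) := by
    rw [Finset.prod_congr rfl fun i _ => hHs i, prod_cyclic g hg H d hdcard]
    apply (algebraMap (unramified F Ω U) Ω).injective
    rw [map_prod, map_mul, map_pow]
    have h1 : ∀ g', algebraMap (unramified F Ω U) Ω (H g') =
      ∑ l, Ψ g' (A l) * algebraMap F Ω (x l) := hval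
    rw [Finset.prod_congr rfl fun g' _ => h1 g', ← hq]
    refine Eq.trans (Fintype.prod_bijective Ψ hΨbij _ (fun σ => ∑ l, σ (A l) * algebraMap F Ω (x l))
      fun _ => rfl) hN
  have hy0 : y ≠ 0 := by
    rintro rfl
    rw [map_zero, zero_pow hn.ne', mul_zero, prod_eq_zero_iff] at hN
    obtain ⟨σ, -, hσ⟩ := hN
    exact hne σ hσ
  have hcont : ∀ w : unramified F Ω U, ∃ E : IntermediateField k (algebraicClosure k Ω),
      FiniteDimensional k E ∧ ∀ σ ∈ E.fixingSubgroup, s σ w = w := by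
    intro w
    have h1 : {e : unramified F Ω U ≃ₐ[F] unramified F Ω U | e w = w} ∈
        nhds (1 : unramified F Ω U ≃ₐ[F] unramified F Ω U) := by
      rw [krullTopology_mem_nhds_one_iff]
      refine ⟨IntermediateField.adjoin F {w}, ?_, ?_⟩
      · exact IntermediateField.adjoin.finiteDimensional (Algebra.IsIntegral.isIntegral _)
      · intro e he
        exact (IntermediateField.mem_fixingSubgroup_iff _ _).1 he _
          (IntermediateField.mem_adjoin_simple_self F _)
    have h2 := G.cont.tendsto 1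
    rw [map_one] at h2
    have h3 := h2 h1
    rw [Filter.mem_map, krullTopology_mem_nhds_one_iff] at h3
    obtain ⟨E, hE, hE'⟩ := h3
    exact ⟨E, hE, fun σ hσ => hE' hσ⟩
  obtain ⟨α, hα⟩ := exists_root_unramified (k := k) U hU hn (s φ (H 1) / H 1) (by
    intro _ W hW
    have h1 : s φ (H 1) = H g := by
      have := hHs 1
      rwa [pow_one, pow_one] at this
    have h2 : ((s φ (H 1) / H 1 : unramified F Ω U) : Ω) =
        (∑ l, Ψ g (A l) * algebraMap F Ω (x l)) / (∑ l, Ψ 1 (A l) * algebraMap F Ω (x l)) := by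
      rw [h1, ← hval, ← hval]
      exact map_div₀ (algebraMap (unramified F Ω U) Ω) _ _
    rw [h2]
    obtain ⟨t, ht0, h3, h4⟩ := hdiv (Ψ g) (Ψ 1) W hW
    exact ⟨algebraMap F Ω t, IntermediateField.algebraMap_mem _ _,
      (_root_.map_ne_zero _).2 ht0, h3, h4⟩)
  obtain ⟨e', he', hae⟩ := abs_norm s ι hι hcont S φ d q hdpos hq0 hpar hgen hφd hφS (H 1)
    (algebraMap F (unramified F Ω U) y) (by
      intro σ hσ
      rw [hH, map_sum]
      refine Finset.sum_congr rfl fun l _ => ?_
      rw [map_mul, hfix, hι]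
      rw [(IntermediateField.mem_fixingSubgroup_iff _ _).1 hσ _ (hψS _)])
    (hH0 1) (fun σ => hfix σ y) ((_root_.map_ne_zero _).2 hy0) a hprod α (by rw [← hq]; exact hα)
  obtain ⟨e, rfl⟩ := he'
  refine ⟨e, ?_⟩
  apply (algebraMap k (algebraicClosure k Ω)).injective
  rw [hae, IsScalarTower.algebraMap_apply k E (algebraicClosure k Ω),
    Algebra.norm_eq_prod_automorphisms, ← prod_cyclic g hg (fun g' => g' e) d hdcard, map_prod]
  exact Finset.prod_congr rfl fun i _ => (hφi i e).symm

end Pool.Agent.Q61.CN
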