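import Pool.Agent.Q61.CN.Sec

/-!
# Virtual sections: sections over finite extensions `L/k` and norms from cyclic extensions `E/k`
-/

set_option autoImplicit false
set_option maxHeartbeats 1000000
set_option linter.unusedSectionVars false

namespace Pool.Agent.Q61.CN

open Pool.Agent.W620.SC Pool.Agent.W623.SecC Pool.Agent.TH120.Sec Pool.Agent.Q61.NF Finset Module

universe u v w x y

/-- products over a commutative group: first over a cyclic subgroup, then over the cosets -/
lemma prod_cosets {G N : Type*} [Group G] [Fintype G] [CommMonoid N]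
    (hcomm : ∀ a b : G, a * b = b * a) (g : G) (f : G → N) :
    ∏ i ∈ range (orderOf g), ∏ q : G ⧸ Subgroup.zpowers g, f (g ^ i * q.out) = ∏ x, f x := by
  classical
  have h1 : ∀ q : G ⧸ Subgroup.zpowers g, ∏ i ∈ range (orderOf g), f (g ^ i * q.out) =
      ∏ h : Subgroup.zpowers g, f (q.out * h) := by
    intro q
    have hcard : orderOf g = Nat.card (Subgroup.zpowers g) := (Nat.card_zpowers g).symm
    have h2 := prod_cyclic (G := Subgroup.zpowers g) (⟨g, Subgroup.mem_zpowers g⟩)
      (by
        rintro ⟨x, i, hi⟩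
        exact ⟨i, Subtype.ext (by simpa using hi)⟩)
      (fun h : Subgroup.zpowers g => f (q.out * (h : G))) (orderOf g) hcard
    rw [← h2]
    refine prod_congr rfl fun i _ => ?_
    rw [hcomm]
    rfl
  rw [prod_comm, prod_congr rfl fun q _ => h1 q, ← Fintype.prod_prod_type'
    (f := fun (q : G ⧸ Subgroup.zpowers g) (h : Subgroup.zpowers g) => f (q.out * (h : G)))]
  refine Fintype.prod_bijective
    (fun p : (G ⧸ Subgroup.zpowers g) × Subgroup.zpowers g => p.1.out * (p.2 : G)) ?_ _ _
    fun _ => rfl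
  constructor
  · rintro ⟨q, h⟩ ⟨q', h'⟩ heq
    simp only at heq
    have e1 : q = q' := by
      have e2 : ((q.out * (h : G) : G) : G ⧸ Subgroup.zpowers g) =
          ((q'.out * (h' : G) : G) : G ⧸ Subgroup.zpowers g) := by rw [heq]
      rwa [QuotientGroup.mk_mul_of_mem _ h.2, QuotientGroup.mk_mul_of_mem _ h'.2,
        QuotientGroup.out_eq', QuotientGroup.out_eq'] at e2
    subst e1
    rw [mul_right_inj] at heq
    rw [Subtype.ext heq]
  · intro x
    refine ⟨⟨(x : G ⧸ Subgroup.zpowers g),
      ⟨((x : G ⧸ Subgroup.zpowers g).out)⁻¹ * x, ?_⟩⟩, ?_⟩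
    · rw [← QuotientGroup.eq, QuotientGroup.out_eq']
    · simp

/-- **Virtual sections and norms.** -/
theorem norm_of_virtual {k : Type u} {L : Type y} {F : Type v} {Ω : Type w} [Field k] [Field L]
    [Field F] [Field Ω] [Algebra k L] [FiniteDimensional k L] [Algebra L F] [Algebra F Ω]
    [Algebra L Ω] [Algebra k Ω] [IsScalarTower L F Ω] [IsScalarTower k L Ω] [CharZero k]
    [IsAlgClosed Ω] [Algebra.IsAlgebraic F Ω]
    (U : Set (ValuationSubring F)) (hU : ∀ O ∈ U, ∀ c : L, algebraMap L F c ∈ O)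
    (G : GSection L F Ω U)
    (E : Type x) [Field E] [Algebra k E] [FiniteDimensional k E] [IsGalois k E]
    [IsCyclic (E ≃ₐ[k] E)] (n : ℕ) (hn : 0 < n) (hdn : finrank k E ∣ n)
    (hpar : Even (n / finrank k E * (finrank k E - 1))) (a : k)
    {r : ℕ} (A : Fin r → E) (x : Fin r → F) (y : F)
    (hne : ∀ σ : E →ₐ[k] Ω, ∑ j, σ (A j) * algebraMap F Ω (x j) ≠ 0)
    (hN : ∏ σ : E →ₐ[k] Ω, ∑ j, σ (A j) * algebraMap F Ω (x j) =
      algebraMap k Ω a * algebraMap F Ω y ^ n)
    (hdiv : ∀ σ τ : E →ₐ[k] Ω, OrdDiv Ω U n (∑ j, σ (A j) * algebraMap F Ω (x j))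
      (∑ j, τ (A j) * algebraMap F Ω (x j))) :
    ∃ e : E, Algebra.norm k e = a ^ finrank k L := by
  classical
  have hL0 : CharZero L := charZero_of_injective_algebraMap (algebraMap k L).injective
  have hac : IsAlgClosure L (algebraicClosure L Ω) := inferInstance
  have hA : IsAlgClosed (algebraicClosure L Ω) := hac.1
  have hnor : Normal L (algebraicClosure L Ω) := IsAlgClosure.normal L _
  have hgalA : IsGalois L (algebraicClosure L Ω) := ⟨⟩
  have hcomm : ∀ a b : E ≃ₐ[k] E, a * b = b * a := by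
    intro a b
    have := IsCyclic.isMulCommutative (α := E ≃ₐ[k] E)
    exact this.is_comm.comm a b
  -- embed `E`
  let ψ : E →ₐ[k] algebraicClosure L Ω := IsAlgClosed.lift
  let _ : Algebra E (algebraicClosure L Ω) := ψ.toRingHom.toAlgebra
  have hst : IsScalarTower k E (algebraicClosure L Ω) :=
    IsScalarTower.of_algebraMap_eq (fun c => (ψ.commutes c).symm)
  let ρ : (algebraicClosure L Ω ≃ₐ[L] algebraicClosure L Ω) →* (E ≃ₐ[k] E) :=
    (AlgEquiv.restrictNormalHom E).comp (AlgEquiv.restrictScalarsHom k)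
  have hρ : ∀ σ (e : E), ψ (ρ σ e) = σ (ψ e) := fun σ e =>
    (AlgEquiv.restrictScalars k σ).restrictNormal_commutes E e
  -- a generator of the image
  obtain ⟨⟨g0, φ, hφ⟩, hg0⟩ := IsCyclic.exists_generator (α := ρ.range)
  have hgen0 : ∀ σ, ∃ i : ℕ, ρ σ = g0 ^ i := by
    intro σ
    have h1 := hg0 ⟨ρ σ, σ, rfl⟩
    rw [← mem_powers_iff_mem_zpowers] at h1
    obtain ⟨i, hi⟩ := h1
    exact ⟨i, (congrArg Subtype.val hi).symm⟩
  set m := orderOf g0 with hm
  set d := finrank k E with hd
  have hdpos : 0 < d := finrank_pos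
  have hmpos : 0 < m := orderOf_pos g0
  have hdcard : Nat.card (E ≃ₐ[k] E) = d := IsGalois.card_aut_eq_finrank k E
  have hmd : m ∣ d := by rw [← hdcard]; exact orderOf_dvd_natCard g0
  obtain ⟨c, hc⟩ := hmd
  have hc0 : 0 < c := Nat.pos_of_ne_zero (by rintro rfl; omega)
  obtain ⟨q, hq⟩ := hdn
  have hq0 : 0 < q := Nat.pos_of_ne_zero (by rintro rfl; omega)
  have hqd : n / d = q := by rw [hq]; exact Nat.mul_div_cancel_left q hdpos
  rw [hqd] at hpar
  have hnm : n = m * (c * q) := by rw [hq, hc]; ring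
  have hpar' : Even (c * q * (m - 1)) := by
    rcases Nat.even_or_odd m with h1 | h1
    · have h2 : Even d := by rw [hc]; exact h1.mul_right c
      have h3 : Odd (d - 1) := by
        obtain ⟨t, ht⟩ := h2
        exact ⟨t - 1, by omega⟩
      have h4 : Even q := by
        rcases Nat.even_or_odd q with h5 | h5
        · exact h5
        · exact absurd hpar (Nat.not_even_iff_odd.2 (h5.mul h3))
      exact (h4.mul_left c).mul_right _
    · obtain ⟨t, ht⟩ := h1
      have h2 : Even (m - 1) := ⟨t, by omega⟩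
      exact h2.mul_left _
  -- the compositum
  obtain ⟨θ, hθ⟩ := Field.exists_primitive_element k E
  set S : IntermediateField L (algebraicClosure L Ω) := IntermediateField.adjoin L {ψ θ} with hS
  have hint : IsIntegral L (ψ θ) := Algebra.IsIntegral.isIntegral _
  have hSfin : FiniteDimensional L S := IntermediateField.adjoin.finiteDimensional hint
  have hψS : ∀ e, ψ e ∈ S := by
    intro e
    have h1 : e ∈ IntermediateField.adjoin k {θ} := by rw [hθ]; trivial
    have h2 : ψ e ∈ (IntermediateField.adjoin k {θ}).map ψ := ⟨e, h1, rfl⟩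
    rw [IntermediateField.adjoin_map, Set.image_singleton] at h2
    have h3 : IntermediateField.adjoin k {ψ θ} ≤ S.restrictScalars k := by
      rw [IntermediateField.adjoin_le_iff, Set.singleton_subset_iff]
      exact IntermediateField.mem_adjoin_simple_self L _
    exact h3 h2
  have hfixS : ∀ σ : algebraicClosure L Ω ≃ₐ[L] algebraicClosure L Ω,
      σ ∈ S.fixingSubgroup ↔ ρ σ = 1 := by
    intro σ
    constructor
    · intro h
      ext e
      apply ψ.toRingHom.injective
      change ψ (ρ σ e) = ψ e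
      rw [hρ]
      exact (IntermediateField.mem_fixingSubgroup_iff _ _).1 h _ (hψS e)
    · intro h
      have h1 : S ≤ IntermediateField.fixedField (Subgroup.zpowers σ) := by
        rw [hS, IntermediateField.adjoin_le_iff, Set.singleton_subset_iff]
        rw [SetLike.mem_coe, IntermediateField.mem_fixedField_iff]
        rintro τ ⟨i, rfl⟩
        have h2 : ρ (σ ^ i) = 1 := by rw [map_zpow, h, one_zpow]
        change (σ ^ i) (ψ θ) = ψ θ
        rw [← hρ, h2]
        rfl
      rw [IntermediateField.mem_fixingSubgroup_iff]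
      intro z hz
      have h3 := h1 hz
      rw [IntermediateField.mem_fixedField_iff] at h3
      exact h3 σ (Subgroup.mem_zpowers σ)
  have hSmap : ∀ σ : algebraicClosure L Ω ≃ₐ[L] algebraicClosure L Ω, ∀ z ∈ S, σ z ∈ S := by
    intro σ z hz
    have h1 : σ z ∈ S.map (σ : algebraicClosure L Ω →ₐ[L] algebraicClosure L Ω) := ⟨z, hz, rfl⟩
    rw [hS, IntermediateField.adjoin_map, Set.image_singleton] at h1
    have h2 : IntermediateField.adjoin L
        {(σ : algebraicClosure L Ω →ₐ[L] algebraicClosure L Ω) (ψ θ)} ≤ S := by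
      rw [IntermediateField.adjoin_le_iff, Set.singleton_subset_iff]
      change σ (ψ θ) ∈ S
      rw [← hρ]
      exact hψS _
    exact h2 h1
  have hφS : ∀ z, φ z ∈ S ↔ z ∈ S := by
    intro z
    constructor
    · intro h
      have := hSmap φ⁻¹ _ h
      change φ.symm (φ z) ∈ S at this
      rwa [φ.symm_apply_apply] at this
    · exact hSmap φ z
  have hφm : φ ^ m ∈ S.fixingSubgroup := by
    rw [hfixS, map_pow, hφ, pow_orderOf_eq_one]
  have hgen : ∀ T : Subgroup (algebraicClosure L Ω ≃ₐ[L] algebraicClosure L Ω),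
      S.fixingSubgroup ≤ T → φ ∈ T → T = ⊤ := by
    intro T hT hφT
    rw [eq_top_iff]
    intro τ _
    obtain ⟨i, hi⟩ := hgen0 τ
    have h3 : (φ ^ i)⁻¹ * τ ∈ S.fixingSubgroup := by
      rw [hfixS, map_mul, map_inv, map_pow, hφ, hi, inv_mul_cancel]
    have h4 : τ = φ ^ i * ((φ ^ i)⁻¹ * τ) := by group
    rw [h4]
    exact T.mul_mem (T.pow_mem hφT i) (hT h3)
  -- the functions
  set s := (toRingAutHom F (unramified F Ω U)).comp G.toHom with hs
  set ι : algebraicClosure L Ω →+* unramified F Ω U := constHom hU with hι0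
  have hι : ∀ σ c, s σ (ι c) = ι (σ c) := fun σ c =>
    Subtype.ext (G.compat σ c (constHom hU c) rfl)
  have hfix : ∀ (σ) (z : F), s σ (algebraMap F (unramified F Ω U) z) =
      algebraMap F (unramified F Ω U) z := fun σ z => (G.toHom σ).commutes z
  set H : (E ≃ₐ[k] E) → unramified F Ω U := fun g' =>
    ∑ l, ι (ψ (g' (A l))) * algebraMap F (unramified F Ω U) (x l) with hH
  let vA : algebraicClosure L Ω →ₐ[k] Ω :=
    ((algebraicClosure L Ω).val).restrictScalars k
  let Ψ : (E ≃ₐ[k] E) → (E →ₐ[k] Ω) := fun g' => (vA.comp ψ).comp (g' : E →ₐ[k] E)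
  have hval : ∀ g', ((H g' : unramified F Ω U) : Ω) =
      ∑ l, Ψ g' (A l) * algebraMap F Ω (x l) := by
    intro g'
    change algebraMap (unramified F Ω U) Ω (H g') = _
    rw [hH, map_sum]
    exact Finset.sum_congr rfl fun l _ => map_mul (algebraMap (unramified F Ω U) Ω) _ _
  have hH0 : ∀ g', H g' ≠ 0 := by
    intro g' h0
    apply hne (Ψ g')
    have h1 := hval g'
    rw [h0] at h1
    exact h1.symm
  have hHs : ∀ σ g', s σ (H g') = H (ρ σ * g') := by
    intro σ g'
    rw [hH, map_sum]
    refine Finset.sum_congr rfl fun l _ => ?_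
    rw [map_mul, hfix, hι, ← hρ]
    rfl
  have hΨbij : Function.Bijective Ψ := by
    let _ : Algebra E Ω := (vA.comp ψ).toRingHom.toAlgebra
    have hst' : IsScalarTower k E Ω :=
      IsScalarTower.of_algebraMap_eq (fun c => ((vA.comp ψ).commutes c).symm)
    have h1 : Ψ = (Normal.algHomEquivAut k Ω E).symm := by
      funext g'
      rfl
    rw [h1]
    exact Equiv.bijective _
  have hprodH : ∏ g', H g' = ι (algebraMap L _ (algebraMap k L a)) *
      algebraMap F (unramified F Ω U) y ^ n := by
    apply (algebraMap (unramified F Ω U) Ω).injective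
    rw [map_prod, map_mul, map_pow]
    have h1 : ∀ g', algebraMap (unramified F Ω U) Ω (H g') =
      ∑ l, Ψ g' (A l) * algebraMap F Ω (x l) := hval
    rw [Finset.prod_congr rfl fun g' _ => h1 g']
    refine Eq.trans (Fintype.prod_bijective Ψ hΨbij _ (fun σ => ∑ l, σ (A l) * algebraMap F Ω (x l))
      fun _ => rfl) (hN.trans ?_)
    congr 1
    change _ = ((algebraMap L (algebraicClosure L Ω) (algebraMap k L a) : algebraicClosure L Ω) : Ω)
    rw [IsScalarTower.algebraMap_apply k L Ω]
    rfl
  let h' : unramified F Ω U := ∏ q : (E ≃ₐ[k] E) ⧸ Subgroup.zpowers g0, H q.out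
  have hsh : ∀ σ, s σ h' = ∏ q : (E ≃ₐ[k] E) ⧸ Subgroup.zpowers g0, H (ρ σ * q.out) := by
    intro σ
    rw [map_prod]
    exact prod_congr rfl fun q _ => hHs σ _
  have hh0 : h' ≠ 0 := prod_ne_zero_iff.2 fun q _ => hH0 _
  have hprod : ∏ i ∈ range m, s (φ ^ i) h' =
      ι (algebraMap L _ (algebraMap k L a)) * algebraMap F (unramified F Ω U) y ^ (m * (c * q)) := by
    rw [← hnm, ← hprodH, ← prod_cosets hcomm g0 H]
    refine prod_congr rfl fun i _ => ?_
    rw [hsh, map_pow, hφ]
  have hy0 : y ≠ 0 := by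
    rintro rfl
    rw [map_zero, zero_pow hn.ne', mul_zero, prod_eq_zero_iff] at hN
    obtain ⟨σ, -, hσ⟩ := hN
    exact hne σ hσ
  have hcont : ∀ w : unramified F Ω U, ∃ E : IntermediateField L (algebraicClosure L Ω),
      FiniteDimensional L E ∧ ∀ σ ∈ E.fixingSubgroup, s σ w = w := by
    intro w
    have h1 : {e : unramified F Ω U ≃ₐ[F] unramified F Ω U | e w = w} ∈
        nhds (1 : unramified F Ω U ≃ₐ[F] unramified F Ω U) := by
      rw [krullTopology_mem_nhds_one_iff]
      refine ⟨IntermediateField.adjoin F {w}, ?_, ?_⟩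
      · exact IntermediateField.adjoin.finiteDimensional (Algebra.IsIntegral.isIntegral _)
      · intro e he
        exact (IntermediateField.mem_fixingSubgroup_iff _ _).1 he _
          (IntermediateField.mem_adjoin_simple_self F _)
    have h2 := G.cont.tendsto 1
    rw [map_one] at h2
    have h3 := h2 h1
    rw [Filter.mem_map, krullTopology_mem_nhds_one_iff] at h3
    obtain ⟨E, hE, hE'⟩ := h3
    exact ⟨E, hE, fun σ hσ => hE' hσ⟩
  have hroot : ∀ g' g'' : E ≃ₐ[k] E, ∃ α : unramified F Ω U, α ^ n = H g' / H g'' := by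
    intro g' g''
    refine exists_root_unramified (k := L) U hU hn (H g' / H g'') ?_
    intro _ W hW
    have h2 : ((H g' / H g'' : unramified F Ω U) : Ω) =
        (∑ l, Ψ g' (A l) * algebraMap F Ω (x l)) / (∑ l, Ψ g'' (A l) * algebraMap F Ω (x l)) := by
      rw [← hval, ← hval]
      exact map_div₀ (algebraMap (unramified F Ω U) Ω) _ _
    rw [h2]
    obtain ⟨t, ht0, h3, h4⟩ := hdiv (Ψ g') (Ψ g'') W hW
    exact ⟨algebraMap F Ω t, IntermediateField.algebraMap_mem _ _,
      (_root_.map_ne_zero _).2 ht0, h3, h4⟩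
  choose α hα using hroot
  have hα' : (∏ q : (E ≃ₐ[k] E) ⧸ Subgroup.zpowers g0, α (g0 * q.out) q.out) ^ (m * (c * q)) =
      s φ h' / h' := by
    rw [← hnm, hsh, hφ, ← prod_div_distrib, ← prod_pow]
    exact prod_congr rfl fun q _ => hα _ _
  obtain ⟨e', he', hae⟩ := abs_norm s ι hι hcont S φ m (c * q) hmpos (Nat.mul_pos hc0 hq0) hpar'
    hgen hφm hφS h' (algebraMap F (unramified F Ω U) y) (by
      intro σ hσ
      rw [hsh, (hfixS σ).1 hσ]
      exact prod_congr rfl fun q _ => by rw [one_mul])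
    hh0 (fun σ => hfix σ y) ((_root_.map_ne_zero _).2 hy0) (algebraMap k L a) hprod _ hα'
  -- the norm from the compositum
  have hSnor : Normal L S := by
    rw [IntermediateField.normal_iff_forall_map_le']
    rintro σ _ ⟨z, hz, rfl⟩
    exact hSmap σ z hz
  have hSgal : IsGalois L S := ⟨⟩
  let _ : Algebra E S := (ψ.toRingHom.codRestrict S.toSubring (fun e => hψS e)).toAlgebra
  have hstS : IsScalarTower k E S := by
    refine IsScalarTower.of_algebraMap_eq fun c => Subtype.ext ?_
    exact (ψ.commutes c).symm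
  have hEfin : FiniteDimensional E S := by
    have : FiniteDimensional k S := FiniteDimensional.trans k L S
    exact FiniteDimensional.right k E S
  have hnorm : Algebra.norm L (⟨e', he'⟩ : S) = algebraMap k L a := by
    apply (algebraMap L (algebraicClosure L Ω)).injective
    rw [hae]
    let γ : S ≃ₐ[L] S := φ.restrictNormal S
    have hγ : ∀ z : S, ((γ z : S) : algebraicClosure L Ω) = φ z := fun z =>
      φ.restrictNormal_commutes S z
    have hγi : ∀ (i : ℕ) (z : S), (((γ ^ i) z : S) : algebraicClosure L Ω) = (φ ^ i) z := by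
      intro i
      induction i with
      | zero => intro z; rfl
      | succ i ih =>
        intro z
        have h1 : (φ ^ (i + 1)) (z : algebraicClosure L Ω) = (φ ^ i) (φ z) := by
          rw [pow_succ]; rfl
        have h2 : (γ ^ (i + 1)) z = (γ ^ i) (γ z) := by rw [pow_succ]; rfl
        rw [h1, h2, ih, hγ]
    have hγpow : ∀ i : ℕ, γ ^ i = 1 ↔ g0 ^ i = 1 := by
      intro i
      rw [← hφ, ← map_pow, ← hfixS, IntermediateField.mem_fixingSubgroup_iff]
      constructor
      · intro h z hz
        have h1 := hγi i ⟨z, hz⟩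
        rw [h] at h1
        exact h1.symm
      · intro h
        refine AlgEquiv.ext fun z => Subtype.ext ?_
        rw [hγi]
        exact h _ z.2
    have hγord : orderOf γ = m := by
      rw [hm]
      apply Nat.dvd_antisymm
      · rw [orderOf_dvd_iff_pow_eq_one, hγpow, pow_orderOf_eq_one]
      · rw [orderOf_dvd_iff_pow_eq_one, ← hγpow, pow_orderOf_eq_one]
    have hγgen : ∀ τ : S ≃ₐ[L] S, τ ∈ Subgroup.zpowers γ := by
      intro τ
      obtain ⟨i, hi⟩ := hgen0 (τ.liftNormal (algebraicClosure L Ω))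
      refine ⟨(i : ℤ), ?_⟩
      change γ ^ (i : ℤ) = τ
      rw [zpow_natCast]
      refine AlgEquiv.ext fun z => Subtype.ext ?_
      rw [hγi]
      have h1 : (τ.liftNormal (algebraicClosure L Ω)) (z : algebraicClosure L Ω) =
          ((τ z : S) : algebraicClosure L Ω) := τ.liftNormal_commutes _ z
      rw [← h1]
      have h2 : (φ ^ i)⁻¹ * τ.liftNormal (algebraicClosure L Ω) ∈ S.fixingSubgroup := by
        rw [hfixS, map_mul, map_inv, map_pow, hφ, hi, inv_mul_cancel]
      have h3 := (IntermediateField.mem_fixingSubgroup_iff _ _).1 h2 _ z.2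
      change (φ ^ i).symm ((τ.liftNormal (algebraicClosure L Ω)) z) = z at h3
      conv_lhs => rw [← h3]
      exact (φ ^ i).apply_symm_apply _
    have hcard : m = Nat.card (S ≃ₐ[L] S) := by
      rw [← hγord]
      exact orderOf_eq_card_of_forall_mem_zpowers hγgen
    rw [IsScalarTower.algebraMap_apply L S (algebraicClosure L Ω),
      Algebra.norm_eq_prod_automorphisms, ← prod_cyclic γ hγgen (fun g' => g' ⟨e', he'⟩) m hcard,
      map_prod]
    exact Finset.prod_congr rfl fun i _ => hγi i ⟨e', he'⟩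
  refine ⟨Algebra.norm E (⟨e', he'⟩ : S), ?_⟩
  rw [Algebra.norm_norm, ← Algebra.norm_norm (R := k) (S := L), hnorm, Algebra.norm_algebraMap]

end Pool.Agent.Q61.CN
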